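import Mathlib

namespace Pool.Agent.Results.MP_de6c1e_al.NotUnion
open Set Filter Topology Matrix

variable {n : ℕ} (B : Matrix (Fin n) (Fin n) ℝ)

/-- `B` is the Gram matrix of a geometric Coxeter system. -/
def IsCoxeter : Prop := ∀ s t, B s t = B t s ∧ (s = t → B s t = 1) ∧
  (s ≠ t → (∃ m : ℕ, 2 ≤ m ∧ B s t = -Real.cos (Real.pi / m)) ∨ B s t ≤ -1)

/-- The form has signature `(n - 1, 1)`. -/
def Lorentzian : Prop := ∃ (P : Matrix (Fin n) (Fin n) ℝ) (i : Fin n), P.det ≠ 0 ∧
  Pᵀ * B * P = diagonal fun j => if j = i then -1 else 1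

/-- The bilinear form with Gram matrix `B` in the basis of simple roots `Pi.single s 1`. -/
def form (x y : Fin n → ℝ) : ℝ := x ⬝ᵥ B *ᵥ y

/-- The reflection in the simple root `s`. -/
noncomputable def σ (s : Fin n) (x : Fin n → ℝ) : Fin n → ℝ :=
  x - (2 * form B x (Pi.single s 1) / form B (Pi.single s 1) (Pi.single s 1)) • Pi.single s 1

/-- The Coxeter group, as the set of all products of simple reflections. -/
inductive InW : ((Fin n → ℝ) → Fin n → ℝ) → Prop
  | one : InW id
  | mul (s : Fin n) {w} : InW w → InW (σ B s ∘ w)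

/-- The direction of `v` is the limit of an injective sequence of points of the orbit of the
direction of `p`. -/
def LimitFrom (p v : Fin n → ℝ) : Prop := ∃ (w : ℕ → (Fin n → ℝ) → Fin n → ℝ) (c : ℕ → ℝ),
  (∀ k, InW B (w k)) ∧ (∀ k l (a : ℝ), w k p = a • w l p → k = l) ∧
    Tendsto (fun k => c k • w k p) atTop (𝓝 v)

/-- `v` lies in the unimodular subspace of a hyperbolic element. -/
def InUhyp (v : Fin n → ℝ) : Prop := ∃ (w : (Fin n → ℝ) → Fin n → ℝ) (x y : Fin n → ℝ) (a b : ℝ),
  InW B w ∧ x ≠ 0 ∧ y ≠ 0 ∧ w x = a • x ∧ w y = b • y ∧ 1 < |a| ∧ |b| < 1 ∧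
    form B v x = 0 ∧ form B v y = 0

def U : Matrix (Fin 3) (Fin 3) ℝ := !![1, -1, -1; -1, 1, -1; -1, -1, 1]

lemma σU (s : Fin 3) (x : Fin 3 → ℝ) : σ U s x = ![![-x 0 + 2 * x 1 + 2 * x 2, x 1, x 2],
    ![x 0, 2 * x 0 - x 1 + 2 * x 2, x 2], ![x 0, x 1, 2 * x 0 + 2 * x 1 - x 2]] s := by
  ext j
  fin_cases s <;> fin_cases j <;> simp [σ, form, U, dotProduct, mulVec, Fin.sum_univ_three] <;> ring

lemma fU (x y : Fin 3 → ℝ) : form U x y = x 0 * (y 0 - y 1 - y 2) + x 1 * (y 1 - y 0 - y 2) +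
    x 2 * (y 2 - y 0 - y 1) := by
  simp [form, U, dotProduct, mulVec, Fin.sum_univ_three]; ring

lemma InW.comp {w w'} (h : InW B w) (h' : InW B w') : InW B (w ∘ w') := by
  induction h with
  | one => exact h'
  | mul s _ ih => exact ih.mul s

lemma facts {w} (h : InW U w) : (∀ x, form U (w x) (w x) = form U x x) ∧
    (∀ (a : ℝ) x, w (a • x) = a • w x) ∧
    (∀ x : Fin 3 → ℝ, (∀ i, ∃ z : ℤ, x i = z) → ∀ i, ∃ z : ℤ, w x i = z) ∧
    ∃ w', InW U w' ∧ ∀ x, w' (w x) = x := by
  induction h with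
  | one => exact ⟨fun _ => rfl, fun _ _ => rfl, fun _ h => h, _, .one, fun _ => rfl⟩
  | mul s _ ih =>
    obtain ⟨h1, h2, h3, w', h4, h5⟩ := ih
    refine ⟨fun x => ?_, fun a x => ?_, fun x hx i => ?_, _, h4.comp U (InW.one.mul s), fun x => ?_⟩
    · rw [← h1 x, Function.comp, σU, fU, fU]
      fin_cases s <;> simp <;> ring
    · rw [Function.comp, Function.comp, h2, σU, σU]
      fin_cases s <;> simp <;> ring
    · choose z hz using h3 x hx
      rw [Function.comp, σU, hz, hz, hz]
      fin_cases s <;> fin_cases i <;> simp <;> norm_cast <;> simp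
    · refine Eq.trans (congrArg w' ?_) (h5 x)
      ext i
      simp only [Function.comp, id, σU]
      fin_cases s <;> fin_cases i <;> simp <;> ring

noncomputable def f (a s : ℝ) : ℝ := (2 * a + s) / (1 + 2 * a * (2 * a + s))

def X (t s : ℝ) : Fin 3 → ℝ := ![-t, -t + s + (1 - t * s), s]

lemma step (a : ℕ) : ∃ w, InW U w ∧ ∀ t s : ℝ, 0 ≤ t → 0 ≤ s →
    ∃ c : ℝ, 0 < c ∧ w (X t (f a s)) = c • X (f a t) s := by
  have P : ∀ a : ℕ, ∃ w, InW U w ∧ ∀ p q r : ℝ, w ![p, p + q + r, q] =
      ![p - 2 * a * r + 4 * a ^ 2 * q, p - 2 * a * r + 4 * a ^ 2 * q + q + (r - 4 * a * q), q] :=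
    fun a => by
    induction a with
    | zero => exact ⟨_, .one, by simp⟩
    | succ a ih =>
      obtain ⟨w, h, e⟩ := ih
      refine ⟨_, (h.mul 1).mul 0, fun p q r => ?_⟩
      ext i
      simp only [Function.comp, e, σU]
      fin_cases i <;> simp <;> ring
  have Q : ∀ a : ℕ, ∃ w, InW U w ∧ ∀ p q r : ℝ, w ![p, p + q + r, q] =
      ![p, p + (q - 2 * a * r + 4 * a ^ 2 * p) + (r - 4 * a * p), q - 2 * a * r + 4 * a ^ 2 * p] :=
    fun a => by
    induction a with
    | zero => exact ⟨_, .one, by simp⟩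
    | succ a ih =>
      obtain ⟨w, h, e⟩ := ih
      refine ⟨_, (h.mul 1).mul 2, fun p q r => ?_⟩
      ext i
      simp only [Function.comp, e, σU]
      fin_cases i <;> simp <;> ring
  obtain ⟨w, h, e⟩ := P a
  obtain ⟨w', h', e'⟩ := Q a
  refine ⟨_, h'.comp U h, fun t s ht hs =>
    ⟨(1 + 2 * a * (2 * a + t)) / (1 + 2 * a * (2 * a + s)), by positivity, ?_⟩⟩
  ext i
  simp only [Function.comp, X, e, e', f]
  fin_cases i <;> simp <;> field_simp <;> ring

lemma f_bd {a s : ℝ} (ha : 1 ≤ a) (hs : 0 ≤ s) : 1 / (2 * a + 2) < f a s ∧ f a s < 1 / (2 * a) := by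
  unfold f
  constructor <;> rw [div_lt_div_iff₀ (by positivity) (by positivity)] <;> nlinarith

lemma back : ∃ s : ℕ → ℝ, ∀ k, 0 ≤ s k ∧ s k = f (k + 1 : ℕ) (s (k + 1)) := by
  have hb : ∀ (k : ℕ) {s : ℝ}, 0 ≤ s → f (k + 1 : ℕ) s ∈ Icc (0 : ℝ) 1 := fun k s hs => by
    have h1 : (1 : ℝ) ≤ (k + 1 : ℕ) := by simp
    exact ⟨le_trans (by positivity) (f_bd h1 hs).1.le,
      (f_bd h1 hs).2.le.trans ((div_le_one (by positivity)).2 (by linarith))⟩
  obtain ⟨s, hs⟩ := IsCompact.nonempty_iInter_of_sequence_nonempty_isCompact_isClosed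
    (fun m : ℕ => {s : ℕ → Icc (0 : ℝ) 1 | ∀ k < m, (s k : ℝ) = f (k + 1 : ℕ) (s (k + 1))})
    (fun m s h k hk => h k (by omega)) (fun m => by
      induction m with
      | zero => exact ⟨0, by simp⟩
      | succ m _ => exact ⟨fun k => (m + 1 - k).rec 0 fun j x => ⟨_, hb (m - j) x.2.1⟩, fun k hk => by
          simp only [show m + 1 - k = (m + 1 - (k + 1)) + 1 by omega,
            show m - (m + 1 - (k + 1)) = k by omega]⟩) (by simp [isCompact_univ]) fun m => by
      simp only [setOf_forall]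
      refine isClosed_iInter fun k => isClosed_iInter fun _ => isClosed_eq (by fun_prop) ?_
      exact Continuous.div (by fun_prop) (by fun_prop) fun s => by
        have := (s (k + 1)).2.1
        positivity
  exact ⟨fun k => s k, fun k => ⟨(s k).2.1, mem_iInter.1 hs _ k (lt_add_one k)⟩⟩

theorem result : ∃ (n : ℕ) (B : Matrix (Fin n) (Fin n) ℝ), IsCoxeter B ∧ Lorentzian B ∧
    ∃ v : Fin n → ℝ, v ≠ 0 ∧ (∃ p, p ≠ 0 ∧ LimitFrom B p v) ∧ ¬ InUhyp B v ∧
      ¬ ∃ s, LimitFrom B (Pi.single s 1) v := by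
  refine ⟨3, U, fun s t => ?_, ⟨!![0, 1 / 2, 1 / 2; 1, 0, 1; 0, -1 / 2, 1 / 2], 2, ?_, ?_⟩,
    X 0 0, by simp [X], ?_, ?_, ?_⟩
  · fin_cases s <;> fin_cases t <;> simp [U]
  · simp [det_fin_three]; norm_num
  · ext i j
    fin_cases i <;> fin_cases j <;> simp [U, mul_apply, Fin.sum_univ_three] <;> norm_num
  · obtain ⟨s, hs⟩ := back
    choose w hw e using step
    let t : ℕ → ℝ := fun k => k.rec 1 fun j x => f (j + 1 : ℕ) x
    have h1 : ∀ k : ℕ, (1 : ℝ) ≤ (k + 1 : ℕ) := fun k => by simp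
    have t0 : ∀ k, 0 < t k := fun k => by
      induction k with
      | zero => exact one_pos
      | succ k ih => exact lt_trans (by positivity) (f_bd (h1 k) ih.le).1
    have td : StrictAnti t := strictAnti_nat_of_succ_lt fun k => by
      refine (f_bd (h1 k) (t0 k).le).2.trans_le ?_
      rcases k with _ | k
      · norm_num [t]
      · refine le_trans (le_of_eq ?_) (f_bd (h1 k) (t0 k).le).1.le
        push_cast; ring
    have : ∀ k, ∃ (g : _) (c : ℝ), InW U g ∧ 0 < c ∧ g (X 1 (s 0)) = c • X (t k) (s k) := fun k => by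
      induction k with
      | zero => exact ⟨_, 1, .one, one_pos, by simp [t]⟩
      | succ k ih =>
        obtain ⟨g, c, h, hc, eg⟩ := ih
        obtain ⟨d, hd, ed⟩ := e (k + 1) _ _ (t0 k).le (hs (k + 1)).1
        exact ⟨_, c * d, (hw (k + 1)).comp U h, by positivity, by
          rw [Function.comp, eg, (facts (hw _)).2.1, (hs k).2, ed, smul_smul]⟩
    choose g c hg hc eg using this
    refine ⟨X 1 (s 0), by simp [X], g, fun k => (c k)⁻¹, hg, fun k l a h => td.injective ?_, ?_⟩
    · rw [eg, eg, smul_smul, ← eq_inv_smul_iff₀ (hc k).ne', smul_smul] at h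
      generalize (c k)⁻¹ * (a * c l) = b at h
      have h0 := congrFun h 0
      have h1 := congrFun h 1
      have h2 := congrFun h 2
      simp [X] at h0 h1 h2
      have := t0 k
      have := t0 l
      have b0 : 0 < b := by by_contra! h; nlinarith
      have : (1 - b) * (1 + b * (t l * s l)) = 0 := by rw [h0, h2] at h1; linarith
      have := (mul_eq_zero.1 this).resolve_right (by have := (hs l).1; positivity)
      rw [h0, ← sub_eq_zero.1 this, one_mul]
    · simp only [eg, inv_smul_smul₀ (hc _).ne']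
      have l : ∀ u v : ℕ → ℝ, (∀ k, 0 ≤ v k) → Tendsto (fun k => f (k + 1 : ℕ) (v k)) atTop (𝓝 0) :=
        fun u v hv => squeeze_zero (fun k => le_trans (by positivity) (f_bd (h1 k) (hv k)).1.le)
          (fun k => (f_bd (h1 k) (hv k)).2.le.trans (by push_cast; gcongr; linarith [h1 k]))
          tendsto_one_div_add_atTop_nhds_zero_nat
      have l1 : Tendsto t atTop (𝓝 0) := (tendsto_add_atTop_iff_nat 1).1 (l t t fun k => (t0 k).le)
      have l2 : Tendsto s atTop (𝓝 0) := (l s _ fun k => (hs _).1).congr fun k => (hs k).2.symm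
      exact ((show Continuous fun x : ℝ × ℝ => X x.1 x.2 by unfold X; fun_prop).tendsto
        (0, 0)).comp (l1.prodMk_nhds l2)
  · rintro ⟨w, x, -, a, -, hw, hx, -, e, -, ha, -, h, -⟩
    obtain ⟨h1, h2, -, w', hw', h3⟩ := facts hw
    obtain ⟨-, h4, h5, -⟩ := facts hw'
    have a0 : a ≠ 0 := by rintro rfl; norm_num at ha
    have k : ∀ (y : Fin 3 → ℝ) (b : ℝ), x = b • y → (∀ i, ∃ z : ℤ, y i = z) → y 1 = 1 → False :=
      fun y b hy hz h => by
      have b0 : b ≠ 0 := by rintro rfl; simp [hy] at hx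
      obtain ⟨z, hz⟩ := h5 y hz 1
      have := congrFun (h3 x) 1
      rw [e, hy, h4, h4] at this
      simp only [Pi.smul_apply, hz, h, smul_eq_mul] at this
      have : a * z = 1 := mul_left_cancel₀ b0 (by linarith)
      have z0 : z ≠ 0 := by rintro rfl; simp at this
      have : (1 : ℝ) ≤ |(z : ℝ)| := by exact_mod_cast Int.one_le_abs z0
      have := congrArg abs ‹a * z = 1›
      rw [abs_mul, abs_one] at this
      nlinarith
    have q := h1 x
    simp [e, fU, X] at q h
    have : x 0 * x 2 = 0 := by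
      have : (a ^ 2 - 1) * (x 0 * x 2) = 0 := by
        rw [show x 1 = x 0 + x 2 by linarith] at q; linarith
      exact (mul_eq_zero.1 this).resolve_left (by nlinarith [sq_abs a])
    rcases mul_eq_zero.1 this with h0 | h0
    · refine k ![0, 1, 1] (x 2) (funext fun i => ?_) (fun i => ?_) rfl
      · fin_cases i <;> simp <;> linarith
      · fin_cases i <;> simp <;> norm_cast <;> simp
    · refine k ![1, 1, 0] (x 0) (funext fun i => ?_) (fun i => ?_) rfl
      · fin_cases i <;> simp <;> linarith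
      · fin_cases i <;> simp <;> norm_cast <;> simp
  · rintro ⟨s, w, c, hw, hi, hl⟩
    have fc : Continuous fun x => form U x x := by simp only [fU]; fun_prop
    have l := (fc.tendsto _).comp hl
    have e : ∀ k, form U (c k • w k (Pi.single s 1)) (c k • w k (Pi.single s 1)) = c k ^ 2 :=
      fun k => by
      have := (facts (hw k)).1 (Pi.single s 1)
      rw [show form U (Pi.single s 1) (Pi.single s 1) = 1 by fin_cases s <;> simp [fU]] at this
      simp only [fU, Pi.smul_apply, smul_eq_mul] at this ⊢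
      linear_combination c k ^ 2 * this
    simp only [Function.comp_def, e, show form U (X 0 0) (X 0 0) = 1 by simp [fU, X]] at l
    choose z hz using fun k => (facts (hw k)).2.2.1 (Pi.single s 1) fun i => by
      fin_cases s <;> fin_cases i <;> simp <;> norm_cast <;> simp
    have zi : Function.Injective z := fun k l h => hi k l 1 (funext fun i => by simp [hz, h])
    have := (l.eventually (lt_mem_nhds (by norm_num : (1 / 4 : ℝ) < 1))).and
      (hl.norm.eventually (gt_mem_nhds (lt_add_one _)))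
    rw [← Nat.cofinite_eq_atTop] at this
    refine Set.infinite_univ ((Finite.union this ((finite_Icc (fun _ => -4) fun _ => 4).preimage
      zi.injOn)).subset fun k _ => ?_)
    by_contra h
    simp only [mem_union, mem_compl_iff, mem_setOf_eq, not_or, not_not] at h
    obtain ⟨⟨h1, h2⟩, h3⟩ := h
    have : ∀ i, |z k i| ≤ 4 := fun i => by
      have := (norm_le_pi_norm _ i).trans_lt h2
      rw [show ‖X 0 0‖ = 1 by simp [X, Pi.norm_def, Fin.univ_succ]] at this
      simp only [Pi.smul_apply, hz, smul_eq_mul, norm_mul, Real.norm_eq_abs] at this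
      have c1 : 1 / 2 < |c k| := by by_contra! h; nlinarith [sq_abs (c k), abs_nonneg (c k)]
      have : |(z k i : ℝ)| ≤ 4 := by nlinarith [abs_nonneg (z k i : ℝ)]
      exact_mod_cast this
    exact h3 ⟨fun i => (abs_le.1 (this i)).1, fun i => (abs_le.1 (this i)).2⟩

end Pool.Agent.Results.MP_de6c1e_al.NotUnion
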